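import Pool.Agent.Y481.DR.Defs
import Pool.Agent.Y458.CG.Mir
import Pool.Agent.TH219.J139

/-!
# Mirror images of the rings of trees (for helper481's project DR)
-/

set_option autoImplicit false

namespace Pool.Agent.Y785.DR

open Finset
open Pool.Agent.W711.HT hiding XX
open Pool.Agent.Y472
open Pool.Agent.Y481.DR
open Pool.Agent.Y458.CG
open Pool.Agent.TH563.UV (Tb XX ngb)
open Pool.Agent.TH219.J139 (XX_diff wt_ngb bl_ngb ne_ngb ngb_XX)
open scoped Real ComplexConjugate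

/-- the mirror image -/
def ngl (ts : List (Tb × Tb)) : List (Tb × Tb) := ts.map fun p => (ngb p.1, ngb p.2)

theorem nel_ngl (ts : List (Tb × Tb)) : nel (ngl ts) = nel ts := by
  unfold nel ngl
  rw [List.map_map]
  congr 1
  refine List.map_congr_left fun p _ => ?_
  show (ngb p.1).ne + (ngb p.2).ne = p.1.ne + p.2.ne
  rw [ne_ngb, ne_ngb]

theorem noC_ngl {ts : List (Tb × Tb)} (h : NoC ts) : NoC (ngl ts) := by
  intro q hq
  unfold ngl at hq
  rw [List.mem_map] at hq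
  obtain ⟨p, hp, rfl⟩ := hq
  exact ⟨(bl_ngb _).trans (h p hp).1, (bl_ngb _).trans (h p hp).2⟩

theorem cV_ngb (N : ℕ) (t : Tb) (i j : ℕ) :
    cV N (tv (ngb t)) i j = -(-1) ^ t.ne * conj (cV N (tv t) i j) := by
  unfold cV tv
  show (-1) ^ (N - 1 - j + i) / (2 * (π : ℂ)) * upp (1 / N) (fun ψ => Ea (ngb t).wt N ψ *
    XX (ngb t) N ψ * Rp N (N - 1 - j) ψ * Rp N i ψ * kr N ψ) = -(-1) ^ t.ne * conj
      ((-1) ^ (N - 1 - j + i) / (2 * (π : ℂ)) * upp (1 / N) fun ψ => Ea t.wt N ψ *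
        XX t N ψ * Rp N (N - 1 - j) ψ * Rp N i ψ * kr N ψ)
  rw [wt_ngb]
  have h1 : upp (1 / N) (fun ψ => Ea (-t.wt) N ψ *
      XX (ngb t) N ψ * Rp N (N - 1 - j) ψ * Rp N i ψ * kr N ψ) =
      (-1) ^ t.ne * upp (1 / N) (fun ψ => Ea (-t.wt) N ψ *
        conj (XX t N (conj ψ)) * Rp N (N - 1 - j) ψ * Rp N i ψ * kr N ψ) := by
    rw [← Pool.Agent.W658.AX.upp_mul]
    refine Pool.Agent.W658.AX.upp_congr _ fun ψ => ?_
    rw [ngb_XX]
    ring
  rw [h1, upp_conj (1 / N) (by positivity)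
    (fun ψ => Ea t.wt N ψ * XX t N ψ * Rp N (N - 1 - j) ψ * Rp N i ψ * kr N ψ)]
  · simp only [map_mul, map_div₀, map_pow, map_neg, map_one, map_ofNat, Complex.conj_ofReal]
    ring
  · intro ψ
    simp only [map_mul, conj_Ea, conj_Rp, conj_kr, Complex.conj_conj]
  · intro ψ
    rw [Ea_even, Rp_even, Rp_even, kr_odd, map_neg, (XX_diff t).2]
    ring

theorem MAV_ngb (N : ℕ) (t : Tb) :
    MAV N (tv (ngb t)) = (-(-1 : ℂ) ^ t.ne) • (MAV N (tv t)).map (starRingEnd ℂ) := by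
  ext i j
  change (if j ≤ i then cV N (tv (ngb t)) j i else 0) =
    (-(-1 : ℂ) ^ t.ne) * conj (if j ≤ i then cV N (tv t) j i else 0)
  split_ifs
  · exact cV_ngb N t j i
  · simp

theorem MBV_ngb (N : ℕ) (χ : ℂ) (t : Tb) :
    MBV N χ (tv (ngb t)) =
      (-(-1 : ℂ) ^ t.ne) • (MBV N (conj χ) (tv t)).map (starRingEnd ℂ) := by
  ext i j
  change (if i ≤ j then (∏ t ∈ Ioc (i : ℕ) j, Ph N χ t) * cV N (tv (ngb t)) i j else 0) =
    (-(-1 : ℂ) ^ t.ne) *
      conj (if i ≤ j then (∏ t ∈ Ioc (i : ℕ) j, Ph N (conj χ) t) * cV N (tv t) i j else 0)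
  split_ifs
  · rw [cV_ngb, map_mul, map_prod]
    simp only [conj_Ph, Complex.conj_conj]
    ring
  · simp

theorem prod_ngl {n : ℕ} (ts : List (Tb × Tb)) (f g : Tb × Tb → Matrix (Fin n) (Fin n) ℂ)
    (h : ∀ p : Tb × Tb, f (ngb p.1, ngb p.2) =
      ((-1 : ℂ) ^ (p.1.ne + p.2.ne)) • (g p).map (starRingEnd ℂ)) :
    ((ngl ts).map f).prod = ((-1 : ℂ) ^ nel ts) • ((ts.map g).prod).map (starRingEnd ℂ) := by
  induction ts with
  | nil =>
    show (1 : Matrix (Fin n) (Fin n) ℂ) =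
      ((-1 : ℂ) ^ 0) • (1 : Matrix (Fin n) (Fin n) ℂ).map (starRingEnd ℂ)
    rw [map_oneM, pow_zero, one_smul]
  | cons p ts ih =>
    have e1 : (ngl (p :: ts)).map f = f (ngb p.1, ngb p.2) :: (ngl ts).map f := rfl
    have e2 : nel (p :: ts) = (p.1.ne + p.2.ne) + nel ts := by
      unfold nel
      rw [List.map_cons, List.sum_cons]
    rw [e1, List.prod_cons, ih, h, List.map_cons, List.prod_cons, map_mulM, e2,
      pow_add _ (p.1.ne + p.2.ne) (nel ts), smul_mul_smul_comm]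

theorem trace_smul_map {n : ℕ} (c : ℂ) (M : Matrix (Fin n) (Fin n) ℂ) :
    (c • M.map (starRingEnd ℂ)).trace = c * conj M.trace := by
  rw [Matrix.trace_smul, smul_eq_mul, map_trace]

theorem sign_mul (a b : ℕ) : (-(-1 : ℂ) ^ a) * (-(-1 : ℂ) ^ b) = (-1) ^ (a + b) := by
  rw [pow_add]
  ring

theorem TV_ngl (N : ℕ) (ts : List (Tb × Tb)) (χ : ℂ) :
    TV N (tvl (ngl ts)) χ = (-1) ^ nel ts * conj (TV N (tvl ts) (conj χ)) := by
  unfold TV
  rw [← trace_smul_map]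
  congr 1
  have h := prod_ngl (n := N) ts (fun p => MAV N (tv p.1) * MBV N χ (tv p.2))
    (fun p => MAV N (tv p.1) * MBV N (conj χ) (tv p.2)) (fun p => by
      show MAV N (tv (ngb p.1)) * MBV N χ (tv (ngb p.2)) = _
      rw [MAV_ngb, MBV_ngb, map_mulM, smul_mul_smul_comm, sign_mul])
  unfold tvl
  rw [List.map_map, List.map_map]
  exact h

theorem ThV_ngl (N : ℕ) (ts : List (Tb × Tb)) (p : ℕ) :
    ThV N (tvl (ngl ts)) p = (-1) ^ nel ts * conj (ThV N (tvl ts) p) := by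
  have hr : conj (2 * (π : ℂ) * p / N) = 2 * (π : ℂ) * p / N := by
    simp only [map_div₀, map_mul, Complex.conj_ofReal, map_natCast, map_ofNat]
  unfold ThV
  rw [← trace_smul_map, map_mulM, map_pH, ← Matrix.mul_smul]
  congr 2
  have h := prod_ngl (n := N) ts
    (fun q => MAV N (tv q.1) * pH N p * MBV N (2 * π * p / N) (tv q.2) * pH N p)
    (fun q => MAV N (tv q.1) * pH N p * MBV N (2 * π * p / N) (tv q.2) * pH N p) (fun q => by
      show MAV N (tv (ngb q.1)) * pH N p * MBV N (2 * π * p / N) (tv (ngb q.2)) * pH N p = _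
      rw [MAV_ngb, MBV_ngb, hr, map_mulM, map_mulM, map_mulM, map_pH, Matrix.smul_mul,
        smul_mul_smul_comm, sign_mul, Matrix.smul_mul])
  unfold tvl
  rw [List.map_map, List.map_map]
  exact h

theorem ES_ngl (N : ℕ) (ts : List (Tb × Tb)) (m : ℤ) :
    ES N (tvl (ngl ts)) (-m) = (-1) ^ nel ts * conj (ES N (tvl ts) m) := by
  have hr : ∀ p : ℕ, conj (2 * (π : ℂ) * p / N) = 2 * (π : ℂ) * p / N := by
    intro p
    simp only [map_div₀, map_mul, Complex.conj_ofReal, map_natCast, map_ofNat]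
  have hd : ∀ p : ℕ, deriv (fun χ => wE N (-m) χ * TV N (tvl (ngl ts)) χ)
      (2 * π * p / N) = (-1) ^ nel ts *
        conj (deriv (fun χ => wE N m χ * TV N (tvl ts) χ) (2 * π * p / N)) := by
    intro p
    have h1 : (fun χ => wE N (-m) χ * TV N (tvl (ngl ts)) χ) =
        fun χ => (-1) ^ nel ts *
          (conj ∘ (fun χ => wE N m χ * TV N (tvl ts) χ) ∘ conj) χ := by
      funext χ
      simp only [Function.comp, map_mul]
      rw [wE_neg, TV_ngl]
      ring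
    rw [h1, deriv_const_mul_field, deriv_conj_conj, Function.comp_apply, Function.comp_apply, hr]
  have hs : ∀ p : ℕ, wE N (-m) (2 * π * p / N) * ThV N (tvl (ngl ts)) p =
      (-1) ^ nel ts * conj (wE N m (2 * π * p / N) * ThV N (tvl ts) p) := by
    intro p
    rw [wE_neg, ThV_ngl, hr, map_mul]
    ring
  unfold ES
  simp only [hd, hs]
  rw [← Finset.mul_sum, ← Finset.mul_sum, ← map_sum, ← map_sum]
  simp only [map_sub, map_mul, Complex.conj_I, map_intCast, map_natCast,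
    map_ofNat, Int.cast_neg]
  ring

theorem norm_ES_ngl (N : ℕ) (ts : List (Tb × Tb)) (m : ℤ) :
    ‖ES N (tvl (ngl ts)) (-m)‖ = ‖ES N (tvl ts) m‖ := by
  rw [ES_ngl, norm_mul, norm_pow, norm_neg, norm_one, one_pow, one_mul, Complex.norm_conj]

/-- mirror images, from the exact formula -/
theorem mird_of (hE : ∀ (N : ℕ) (ts : List (Tb × Tb)) (m : ℤ), 2 ≤ N → ts ≠ [] → NoC ts →
      ‖JD ts m N (vN N)‖ = ((N : ℝ) ^ 2 / (2 * π)) ^ nel ts * ‖ES N (tvl ts) m‖)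
    (N : ℕ) (ts : List (Tb × Tb)) (m : ℤ) (hN : 2 ≤ N) (hts : ts ≠ []) (hc : NoC ts) :
    ‖JD (ts.map fun p => (ngb p.1, ngb p.2)) (-m) N (vN N)‖ = ‖JD ts m N (vN N)‖ := by
  have h1 : ngl ts ≠ [] := fun h => hts (List.map_eq_nil_iff.mp h)
  have h2 := hE N (ngl ts) (-m) hN h1 (noC_ngl hc)
  rw [nel_ngl, norm_ES_ngl, ← hE N ts m hN hts hc] at h2
  exact h2

/-- mirror images -/
theorem mird (hT : S_TRP) (hP : S_EXP) (hL : S_TPL) (hJ : S_JPD) (hD : S_EXD)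
    (N : ℕ) (ts : List (Tb × Tb)) (m : ℤ) (hN : 2 ≤ N) (hts : ts ≠ []) (hc : NoC ts) :
    ‖JD (ts.map fun p => (ngb p.1, ngb p.2)) (-m) N (vN N)‖ = ‖JD ts m N (vN N)‖ :=
  mird_of (hD hT hP hL hJ) N ts m hN hts hc

end Pool.Agent.Y785.DR
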